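import Pool.Agent.Q5.RF.Rigid
import Pool.Agent.Q5.VL.Abs

/-! **The fields without automorphisms suffice.** -/

set_option autoImplicit false
set_option linter.unusedSectionVars false

namespace Pool.Agent.Q5.RF

open NumberField Polynomial Module Pool.Agent.W353.NF Pool.Agent.W401.Cheb Pool.Agent.Q5.BR
open Pool.Agent.Q5.VL (IsLaw)

section
variable {F : Type} [Field F] [NumberField F]

theorem rad_adjoin {p : ℕ} (hp : p.Prime) (c : 𝓞 F) [h : Fact (Irreducible (pol p (c : F)))]
    [NumberField (AdjoinRoot (pol p (c : F)))] :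
    ∃ γ : 𝓞 (AdjoinRoot (pol p (c : F))), Rad p c γ := by
  have hroot : (AdjoinRoot.root (pol p (c : F))) ^ p =
      algebraMap F (AdjoinRoot (pol p (c : F))) (c : F) := by
    have h1 := AdjoinRoot.eval₂_root (pol p (c : F))
    unfold pol at h1 ⊢
    rw [eval₂_sub, eval₂_pow, eval₂_X, eval₂_C, sub_eq_zero] at h1
    exact h1
  have hint : IsIntegral ℤ (AdjoinRoot.root (pol p (c : F))) := by
    have h1 : IsIntegral ℤ ((AdjoinRoot.root (pol p (c : F))) ^ p) := by
      rw [hroot]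
      exact c.2.map (IsScalarTower.toAlgHom ℤ F (AdjoinRoot (pol p (c : F))))
    exact h1.of_pow hp.pos
  let γ : 𝓞 (AdjoinRoot (pol p (c : F))) := ⟨AdjoinRoot.root (pol p (c : F)), hint⟩
  refine ⟨γ, ⟨?_, ?_, finrank_rd hp.pos _⟩⟩
  · apply RingOfIntegers.ext
    have e1 : ((γ ^ p : 𝓞 (AdjoinRoot (pol p (c : F)))) : AdjoinRoot (pol p (c : F))) =
      (AdjoinRoot.root (pol p (c : F))) ^ p :=
        map_pow (algebraMap (𝓞 (AdjoinRoot (pol p (c : F)))) (AdjoinRoot (pol p (c : F)))) γ p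
    rw [e1, hroot]
    rfl
  · exact AdjoinRoot.adjoinRoot_eq_top

/-- simple zeros of products -/
theorem mul_unif {P : Ideal (𝓞 F)} (hP : P.IsMaximal) {a y : 𝓞 F} (ha : a ∉ P ^ 2) (hy : y ∉ P) :
    a * y ∉ P ^ 2 := by
  intro h
  apply ha
  have h1 : P ^ 2 ∣ Ideal.span {a} * Ideal.span {y} := by
    rw [Ideal.span_singleton_mul_span_singleton, Ideal.dvd_span_singleton]
    exact h
  have h2 := (Ideal.prime_of_isPrime (ne_bot_max hP) hP.isPrime).pow_dvd_of_dvd_mul_right 2 (by
    rw [Ideal.dvd_span_singleton]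
    exact hy) h1
  rwa [Ideal.dvd_span_singleton] at h2

variable (F) in
/-- **The relation between rigid extensions.** -/
theorem exists_rigid_relation (p : ℕ) [hp : Fact p.Prime] (hlt : finrank ℚ F + 1 < p) :
    ∃ (ι : Type) (_ : Fintype ι) (X : ι → Ext F) (n : ι → ℤ),
      (∀ j, Module.finrank F (X j).F = p ∨ Module.finrank F (X j).F = p ^ 2) ∧
      (∀ j, Rigid (X j).F) ∧
      ∀ σ : GK F, ∑ j, n j * (fixn F (X j).F σ : ℤ) = p := by
  classical
  obtain ⟨a, b, P, Q, hP, hQ, hpP, hpQ, haP, haP2, hbQ, hbQ2, hcaP, hcbP, hcbQ, hcaQ⟩ :=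
    exists_ab ℚ F (p := p) hp.out.ne_zero
  have hb' : Irreducible (pol p (b : F)) := X_pow_sub_C_irreducible_of_prime hp.out
    (not_pow hp.out.two_le hQ.isPrime hbQ hbQ2)
  let _ : Fact (Irreducible (pol p (b : F))) := ⟨hb'⟩
  let L := AdjoinRoot (pol p (b : F))
  let iL : NumberField L := numberField_rd
  obtain ⟨β, hβ⟩ := rad_adjoin hp.out b
  have hbP : b ∉ P := hcbP 1
  let a' : 𝓞 L := algebraMap (𝓞 F) (𝓞 L) a
  have ha' : Irreducible (pol p (a' : L)) := by
    obtain ⟨Q', hQ', -, h1, h2⟩ := hβ.step hp.out hP hpP hbP haP haP2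
    exact X_pow_sub_C_irreducible_of_prime hp.out (not_pow hp.out.two_le hQ'.isPrime h1 h2)
  let _ : Fact (Irreducible (pol p (a' : L))) := ⟨ha'⟩
  let M := AdjoinRoot (pol p (a' : L))
  let iM : NumberField M := numberField_rd
  obtain ⟨α, hα⟩ := rad_adjoin hp.out a'
  have hbi : ∀ (i : ℕ) (τ : F ≃ₐ[ℚ] F), (ti τ b) ^ i ∉ P := fun i τ h =>
    hcbP τ (hP.isPrime.mem_of_pow_mem i h)
  have hirr : ∀ i : ℕ, Irreducible (pol p ((a * b ^ i : 𝓞 F) : F)) := fun i =>
    X_pow_sub_C_irreducible_of_prime hp.out (not_pow hp.out.two_le hP.isPrime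
      (P.mul_mem_right _ haP) (mul_unif hP haP2 (hbi i 1)))
  have hfac : ∀ i : ℕ, Fact (Irreducible (pol p ((a * b ^ i : 𝓞 F) : F))) := fun i => ⟨hirr i⟩
  have hnf : ∀ i : ℕ, NumberField (AdjoinRoot (pol p ((a * b ^ i : 𝓞 F) : F))) := fun i =>
    numberField_rd
  let X : Fin p ⊕ Bool → Ext F := Sum.elim
    (fun i => @Ext.mk F _ _ (AdjoinRoot (pol p ((a * b ^ (i : ℕ) : 𝓞 F) : F))) _ (hnf i) _)
    (fun t => if t then @Ext.mk F _ _ L _ iL _ else @Ext.mk F _ _ M _ iM _)
  let n : Fin p ⊕ Bool → ℤ := Sum.elim (fun _ => 1) (fun t => if t then 1 else -1)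
  refine ⟨Fin p ⊕ Bool, inferInstance, X, n, ?_, ?_, ?_⟩
  · rintro (i | t)
    · left
      exact finrank_rd hp.out.pos _
    · cases t with
      | true =>
        left
        exact finrank_rd hp.out.pos _
      | false =>
        right
        change Module.finrank F M = p ^ 2
        have h1 : Module.Finite F L := finite_rd hp.out.pos _
        have h2 : Module.Finite L M := finite_rd hp.out.pos _
        rw [← Module.finrank_mul_finrank F L M, sq]
        congr 1
        · exact finrank_rd hp.out.pos _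
        · exact finrank_rd hp.out.pos _
  · rintro (i | t)
    · have := hnf i
      have := hfac i
      obtain ⟨γ, hγ⟩ := rad_adjoin hp.out (a * b ^ (i : ℕ))
      refine rigid_one hp.out hlt hγ hP hpP (P.mul_mem_right _ haP)
        (mul_unif hP haP2 (hbi i 1)) fun τ hτ h => ?_
      rw [map_mul, map_pow] at h
      rcases hP.isPrime.mem_or_mem h with h1 | h1
      · exact hcaP τ hτ h1
      · exact hbi i τ h1
    · cases t with
      | true => exact rigid_one hp.out hlt hβ hQ hpQ hbQ hbQ2 hcbQ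
      | false =>
        change Rigid M
        exact rigid_two hp.out hlt hβ hα hP hpP haP haP2 hcaP hcbP
  · intro σ
    rw [Fintype.sum_sum_type, Fintype.sum_bool]
    have hci : ∀ i : ℕ, ((a * b ^ i : 𝓞 F) : F) = (a : F) * (b : F) ^ i := fun i => by
      change algebraMap (𝓞 F) F (a * b ^ i) = _
      rw [map_mul, map_pow]
    have h1 : ∀ i : Fin p, n (Sum.inl i) * (fixn F (X (Sum.inl i)).F σ : ℤ) =
        (Rt p ((a : F) * (b : F) ^ (i : ℕ)) σ : ℤ) := by
      intro i
      have hf := hfac i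
      have h := fixn_rd (K := F) (L := F) (p := p) (c := ((a * b ^ (i : ℕ) : 𝓞 F) : F))
        ((a * b ^ (i : ℕ) : 𝓞 F) : F) rfl (hnf i) σ
      rw [BR.fixn_self, one_mul] at h
      change (1 : ℤ) * ((fixn F (AdjoinRoot (pol p ((a * b ^ (i : ℕ) : 𝓞 F) : F))) σ : ℕ) : ℤ) = _
      rw [h, one_mul, hci]
    have h2 : fixn F L σ = Rt p (b : F) σ := by
      have h := fixn_rd (K := F) (L := F) (p := p) (c := (b : F)) (b : F) rfl iL σ
      rwa [BR.fixn_self, one_mul] at h
    have h3 : fixn F M σ = Rt p (b : F) σ * Rt p (a : F) σ := by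
      have h := fixn_rd (K := F) (L := L) (p := p) (c := (a' : L)) (a : F) rfl iM σ
      rwa [h2] at h
    have h4 : n (Sum.inr true) * (fixn F (X (Sum.inr true)).F σ : ℤ) = (Rt p (b : F) σ : ℤ) := by
      change (1 : ℤ) * ((fixn F L σ : ℕ) : ℤ) = _
      rw [h2, one_mul]
    have h5 : n (Sum.inr false) * (fixn F (X (Sum.inr false)).F σ : ℤ) =
        -((Rt p (b : F) σ : ℤ) * (Rt p (a : F) σ : ℤ)) := by
      change (-1 : ℤ) * ((fixn F M σ : ℕ) : ℤ) = _
      rw [h3]
      push_cast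
      ring
    rw [Finset.sum_congr rfl fun i _ => h1 i, h4, h5]
    have haF : (a : F) ≠ 0 := fun h0 => haP2 (by
      have h6 : a = 0 := RingOfIntegers.ext h0
      rw [h6]
      exact Submodule.zero_mem _)
    have hbF : (b : F) ≠ 0 := fun h0 => hbQ2 (by
      have h6 : b = 0 := RingOfIntegers.ext h0
      rw [h6]
      exact Submodule.zero_mem _)
    have h6 := congrArg (fun z : ℕ => (z : ℤ)) (Rt_rel (p := p) haF hbF σ)
    simp only [Nat.cast_add, Nat.cast_sum, Nat.cast_mul] at h6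
    rw [Finset.sum_range] at h6
    linear_combination h6

end

section
variable {K : Type} [Field K] [NumberField K]
  {P : ∀ (F : Type) [Field F] [NumberField F] [Algebra K F], ℤ → Prop}

/-- **The law for the rigid fields.** -/
theorem gen_rigid_law (hP : IsLaw P) {D : Set ℕ}
    (hD : ∀ d ∈ D, ∀ n : ℕ, 0 < n → d * n ∈ D) (hD' : ∀ g : ℕ, (∀ d ∈ D, g ∣ d) → g = 1)
    (h : ∀ (F : Type) [Field F] [NumberField F] [Algebra K F], Rigid F →
      Module.finrank K F ∈ D → P F 1)
    (F : Type) [Field F] [NumberField F] [Algebra K F] : P F 1 := by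
  refine VL.gen_sparse_law hP hD hD' (fun F' _ _ _ hF' => ?_) F
  refine VL.one_of_gcd hP F' (D := {p : ℕ | p.Prime ∧ finrank ℚ F' + 1 < p}) ?_ ?_
  · intro g hg
    obtain ⟨p, hp1, hp⟩ := Nat.exists_infinite_primes (finrank ℚ F' + 2)
    obtain ⟨q, hq1, hq⟩ := Nat.exists_infinite_primes (p + 1)
    have h1 : g ∣ p := hg p ⟨hp, by omega⟩
    have h2 : g ∣ q := hg q ⟨hq, by omega⟩
    have h3 : Nat.Coprime p q := (Nat.coprime_primes hp hq).2 (by omega)
    exact Nat.eq_one_of_dvd_coprimes h3 h1 h2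
  · rintro p ⟨hp, hlt⟩
    have hpf : Fact p.Prime := ⟨hp⟩
    obtain ⟨ι, _, Y, nn, hdeg, hrig, hrel⟩ := exists_rigid_relation F' p hlt
    let _ : ∀ j, Algebra K (Y j).F := fun j =>
      ((algebraMap F' (Y j).F).comp (algebraMap K F')).toAlgebra
    have : ∀ j, IsScalarTower K F' (Y j).F := fun j =>
      IsScalarTower.of_algebraMap_eq fun x => rfl
    have h1 := hP.step F' ι Y nn p hrel 1 (fun j => by
      refine h (Y j).F (hrig j) ?_
      rw [← Module.finrank_mul_finrank K F' (Y j).F]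
      rcases hdeg j with h4 | h4
      · rw [h4]
        exact hD _ hF' p hp.pos
      · rw [h4]
        exact hD _ hF' _ (pow_pos hp.pos 2))
    rwa [mul_one] at h1

/-- **The power law for the rigid fields.** -/
theorem gen_rigid_power_law (hP : IsLaw P) {M : ℕ}
    (h : ∀ (F : Type) [Field F] [NumberField F] [Algebra K F], Rigid F →
      M ∣ Module.finrank K F → P F 1)
    (F : Type) [Field F] [NumberField F] [Algebra K F] :
    P F ((M / M.gcd (Module.finrank K F) : ℕ) : ℤ) := by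
  refine VL.gen_power_law' hP (M := M) (fun F' _ _ _ hF' => ?_) F
  refine VL.one_of_gcd hP F' (D := {p : ℕ | p.Prime ∧ finrank ℚ F' + 1 < p}) ?_ ?_
  · intro g hg
    obtain ⟨p, hp1, hp⟩ := Nat.exists_infinite_primes (finrank ℚ F' + 2)
    obtain ⟨q, hq1, hq⟩ := Nat.exists_infinite_primes (p + 1)
    have h1 : g ∣ p := hg p ⟨hp, by omega⟩
    have h2 : g ∣ q := hg q ⟨hq, by omega⟩
    have h3 : Nat.Coprime p q := (Nat.coprime_primes hp hq).2 (by omega)
    exact Nat.eq_one_of_dvd_coprimes h3 h1 h2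
  · rintro p ⟨hp, hlt⟩
    have hpf : Fact p.Prime := ⟨hp⟩
    obtain ⟨ι, _, Y, nn, hdeg, hrig, hrel⟩ := exists_rigid_relation F' p hlt
    let _ : ∀ j, Algebra K (Y j).F := fun j =>
      ((algebraMap F' (Y j).F).comp (algebraMap K F')).toAlgebra
    have : ∀ j, IsScalarTower K F' (Y j).F := fun j =>
      IsScalarTower.of_algebraMap_eq fun x => rfl
    have h1 := hP.step F' ι Y nn p hrel 1 (fun j => by
      refine h (Y j).F (hrig j) ?_
      rw [← Module.finrank_mul_finrank K F' (Y j).F]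
      exact hF'.mul_right _)
    rwa [mul_one] at h1

end

end Pool.Agent.Q5.RF
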