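import Mathlib

/-! Elements with a prime divisor that divides none of their conjugates. -/

set_option autoImplicit false
set_option linter.unusedSectionVars false

namespace Pool.Agent.Q5.RF

open NumberField

section
variable {F : Type} [Field F] [NumberField F]

theorem exists_nonunit {β : 𝓞 F} (hβ : β ≠ 0) : ∃ t : ℕ, ¬ IsUnit (1 - β * (t : 𝓞 F)) := by
  classical
  by_contra hcon
  push Not at hcon
  have hβ' : (β : F) ≠ 0 := by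
    intro h
    exact hβ (RingOfIntegers.ext h)
  have hpos : ∀ φ : F →+* ℂ, 0 < ‖φ β‖ := fun φ =>
    norm_pos_iff.2 ((map_ne_zero φ).2 hβ')
  obtain ⟨t, ht⟩ := exists_nat_gt (∑ φ : F →+* ℂ, 2 / ‖φ β‖)
  have ht' : ∀ φ : F →+* ℂ, 2 < (t : ℝ) * ‖φ β‖ := by
    intro φ
    have h1 : 2 / ‖φ β‖ ≤ ∑ φ : F →+* ℂ, 2 / ‖φ β‖ :=
      Finset.single_le_sum (f := fun φ : F →+* ℂ => 2 / ‖φ β‖)
        (fun φ _ => (div_pos two_pos (hpos φ)).le) (Finset.mem_univ φ)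
    exact (div_lt_iff₀ (hpos φ)).1 (h1.trans_lt ht)
  obtain ⟨z, hz⟩ := hcon t
  have hzn : ∀ φ : F →+* ℂ, 1 < ‖φ ((z : 𝓞 F) : F)‖ := by
    intro φ
    have h1 : ((z : 𝓞 F) : F) = 1 - (β : F) * (t : F) := by
      rw [hz]
      simp
    rw [h1, map_sub, map_mul, map_one, map_natCast]
    have h2 : ‖φ (β : F) * (t : ℂ)‖ = t * ‖φ (β : F)‖ := by
      rw [norm_mul, Complex.norm_natCast, mul_comm]
    have h3 : ‖φ (β : F) * (t : ℂ)‖ ≤ ‖1 - φ (β : F) * (t : ℂ)‖ + ‖(1 : ℂ)‖ := by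
      have h4 := norm_sub_le (1 : ℂ) (1 - φ (β : F) * (t : ℂ))
      rw [sub_sub_cancel, add_comm] at h4
      exact h4
    rw [h2, norm_one] at h3
    have h5 := ht' φ
    linarith
  let v : 𝓞 F := ((z⁻¹ : (𝓞 F)ˣ) : 𝓞 F)
  have hzv : ((z : 𝓞 F) : F) * (v : F) = 1 := by
    have h1 : (z : 𝓞 F) * v = 1 := z.mul_inv
    have h2 := congrArg (fun x : 𝓞 F => (x : F)) h1
    simpa using h2
  have hvn : ∀ φ : F →+* ℂ, ‖φ (v : F)‖ < 1 := by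
    intro φ
    have h1 : ‖φ ((z : 𝓞 F) : F)‖ * ‖φ (v : F)‖ = 1 := by
      rw [← norm_mul, ← map_mul, hzv, map_one, norm_one]
    have h2 := hzn φ
    by_contra h3
    have h4 : 1 ≤ ‖φ (v : F)‖ := not_lt.1 h3
    nlinarith
  have hv0 : (v : F) ≠ 0 := right_ne_zero_of_mul_eq_one hzv
  obtain ⟨n, hn, hvn1⟩ := Embeddings.pow_eq_one_of_norm_le_one F ℂ hv0 v.2 fun φ => (hvn φ).le
  obtain ⟨φ⟩ : Nonempty (F →+* ℂ) := inferInstance
  have h1 : ‖φ (v : F)‖ ^ n = 1 := by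
    rw [← norm_pow, ← map_pow, hvn1, map_one, norm_one]
  have h2 : ‖φ (v : F)‖ ^ n < 1 := pow_lt_one₀ (norm_nonneg _) (hvn φ) (by omega)
  exact h2.ne h1

/-- a prime ideal outside of a given set, modulo which `x` is an integer -/
theorem exists_prime {x D : 𝓞 F} (hx : x ≠ 0) (hD : D ≠ 0) :
    ∃ P : Ideal (𝓞 F), P.IsMaximal ∧ D ∉ P ∧ ∃ n : ℕ, x - (n : 𝓞 F) ∈ P := by
  have hxD : x * D ≠ 0 := mul_ne_zero hx hD
  set N : ℕ := Ideal.absNorm (Ideal.span {x * D}) with hN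
  have hN0 : N ≠ 0 := by
    rw [hN, Ne, Ideal.absNorm_eq_zero_iff, Ideal.span_singleton_eq_bot]
    exact hxD
  have hN0' : (N : 𝓞 F) ≠ 0 := by exact_mod_cast hN0
  have h1 : (N : 𝓞 F) ∈ Ideal.span {x * D} := Ideal.absNorm_mem _
  obtain ⟨w, hw⟩ := Ideal.mem_span_singleton'.1 h1
  have hw0 : w ≠ 0 := by
    rintro rfl
    rw [zero_mul] at hw
    exact hN0' hw.symm
  obtain ⟨t, ht⟩ := exists_nonunit (β := D * w * (N : 𝓞 F)) (mul_ne_zero (mul_ne_zero hD hw0) hN0')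
  obtain ⟨P, hP, hzP⟩ := exists_max_ideal_of_mem_nonunits ht
  refine ⟨P, hP, fun hDP => ?_, N * N * t, ?_⟩
  · apply hP.ne_top
    rw [Ideal.eq_top_iff_one]
    have h2 : D * w * (N : 𝓞 F) * (t : 𝓞 F) ∈ P := by
      rw [mul_assoc, mul_assoc]
      exact P.mul_mem_right _ hDP
    have h3 := P.add_mem hzP h2
    rwa [sub_add_cancel] at h3
  · have h2 : x - ((N * N * t : ℕ) : 𝓞 F) = x * (1 - D * w * (N : 𝓞 F) * (t : 𝓞 F)) := by
      push_cast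
      linear_combination (N : 𝓞 F) * (t : 𝓞 F) * hw
    rw [h2]
    exact P.mul_mem_left _ hzP

/-- an element with a simple zero at `P` and without zeros at other primes -/
theorem exists_unif {P : Ideal (𝓞 F)} (hP : P.IsMaximal) (hP0 : P ≠ ⊥) {ι : Type} [Finite ι]
    (J : ι → Ideal (𝓞 F)) (hJ : ∀ i, (J i).IsMaximal) (hne : ∀ i, P ≠ J i) :
    ∃ a, a ∈ P ∧ a ∉ P ^ 2 ∧ ∀ i, a ∉ J i := by
  have := Fintype.ofFinite ι
  have hcop : IsCoprime (P ^ 2) (∏ i, J i) := by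
    refine IsCoprime.pow_left (IsCoprime.prod_right fun i _ => ?_)
    rw [Ideal.isCoprime_iff_sup_eq]
    exact hP.coprime_of_ne (hJ i) (hne i)
  obtain ⟨u, hu, j, hj, huj⟩ := Ideal.isCoprime_iff_exists.1 hcop
  obtain ⟨π, hπ, hπ'⟩ := Ideal.exists_mem_pow_notMem_pow_succ P hP0 hP.ne_top 1
  rw [pow_one] at hπ
  refine ⟨π * j + u, P.add_mem (P.mul_mem_right _ hπ) (Ideal.pow_le_self two_ne_zero hu),
    fun h => hπ' ?_, fun i h => (hJ i).ne_top ?_⟩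
  · have h1 : π = (π * j + u) - (u - π * u) := by linear_combination (-π) * huj
    have h2 : (π * j + u) - (u - π * u) ∈ P ^ 2 :=
      (P ^ 2).sub_mem h ((P ^ 2).sub_mem hu ((P ^ 2).mul_mem_left _ hu))
    rw [← h1] at h2
    exact h2
  · rw [Ideal.eq_top_iff_one]
    have hji : j ∈ J i := Ideal.prod_le_inf.trans (Finset.inf_le (Finset.mem_univ i)) hj
    have h1 : (1 : 𝓞 F) = (π * j + u) - (π * j - j) := by linear_combination (-1 : 𝓞 F) * huj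
    have h2 : (π * j + u) - (π * j - j) ∈ J i :=
      (J i).sub_mem h ((J i).sub_mem ((J i).mul_mem_left _ hji) hji)
    rw [← h1] at h2
    exact h2

end

section
variable {K F : Type} [Field K] [NumberField K] [Field F] [NumberField F] [Algebra K F]

/-- the action on the integers -/
noncomputable def ti (τ : F ≃ₐ[K] F) : 𝓞 F ≃+* 𝓞 F := RingOfIntegers.mapRingEquiv (τ : F ≃+* F)

theorem ti_coe (τ : F ≃ₐ[K] F) (x : 𝓞 F) : ((ti τ x : 𝓞 F) : F) = τ (x : F) := rfl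

theorem ti_mul (σ τ : F ≃ₐ[K] F) (x : 𝓞 F) : ti (σ * τ) x = ti σ (ti τ x) := rfl

theorem ti_one (x : 𝓞 F) : ti (1 : F ≃ₐ[K] F) x = x := rfl

variable (K F) in
theorem exists_gen : ∃ x : 𝓞 F, x ≠ 0 ∧ ∀ τ : F ≃ₐ[K] F, τ ≠ 1 → ti τ x ≠ x := by
  have hfd : FiniteDimensional K F := by
    have : IsScalarTower ℚ K F := inferInstance
    exact FiniteDimensional.right ℚ K F
  obtain ⟨α, hα⟩ := Field.exists_primitive_element K F
  obtain ⟨y, hy0, hy⟩ : ∃ y : ℤ, y ≠ 0 ∧ IsIntegral ℤ ((y : F) * α) := by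
    have h1 : IsAlgebraic ℤ α := (IsFractionRing.isAlgebraic_iff ℤ ℚ F).2
      (Algebra.IsAlgebraic.isAlgebraic α)
    obtain ⟨y, hy0, hy⟩ := h1.exists_integral_multiple
    refine ⟨y, hy0, ?_⟩
    rwa [zsmul_eq_mul] at hy
  let x : 𝓞 F := ⟨(y : F) * α, hy⟩
  have hτ : ∀ τ : F ≃ₐ[K] F, τ ≠ 1 → ti τ x ≠ x := by
    intro τ hτ h
    apply hτ
    have h1 : τ ((y : F) * α) = (y : F) * α := congrArg (fun z : 𝓞 F => (z : F)) h
    rw [map_mul, map_intCast] at h1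
    have h2 : τ α = α := mul_left_cancel₀ (by exact_mod_cast hy0) h1
    have h3 : (⊤ : IntermediateField K F) ≤ IntermediateField.fixedField (Subgroup.zpowers τ) := by
      rw [← hα, IntermediateField.adjoin_simple_le_iff, IntermediateField.mem_fixedField_iff]
      intro f hf
      obtain ⟨n, rfl⟩ := Subgroup.mem_zpowers_iff.1 hf
      have h4 : τ ∈ MulAction.stabilizer (F ≃ₐ[K] F) α := h2
      exact (MulAction.stabilizer (F ≃ₐ[K] F) α).zpow_mem h4 n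
    apply AlgEquiv.ext
    intro z
    exact (IntermediateField.mem_fixedField_iff _ _).1 (h3 (IntermediateField.mem_top (x := z))) τ
      (Subgroup.mem_zpowers τ)
  by_cases hx : x = 0
  · refine ⟨1, one_ne_zero, fun τ h => ?_⟩
    exfalso
    apply hτ τ h
    rw [hx, map_zero]
  · exact ⟨x, hx, hτ⟩

theorem ne_bot_max {P : Ideal (𝓞 F)} (hP : P.IsMaximal) : P ≠ ⊥ :=
  Ring.ne_bot_of_isMaximal_of_not_isField hP (RingOfIntegers.not_isField F)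

theorem comap_max {P : Ideal (𝓞 F)} (hP : P.IsMaximal) (τ : F ≃ₐ[K] F) :
    (P.comap (ti τ : 𝓞 F →+* 𝓞 F)).IsMaximal :=
  Ideal.comap_isMaximal_of_surjective (ti τ : 𝓞 F →+* 𝓞 F) (ti τ).surjective

variable (K F) in
/-- **Two elements with prime divisors that divide none of the other conjugates.** -/
theorem exists_ab {p : ℕ} (hp : p ≠ 0) : ∃ (a b : 𝓞 F) (P Q : Ideal (𝓞 F)), P.IsMaximal ∧
    Q.IsMaximal ∧ (p : 𝓞 F) ∉ P ∧ (p : 𝓞 F) ∉ Q ∧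
    a ∈ P ∧ a ∉ P ^ 2 ∧ b ∈ Q ∧ b ∉ Q ^ 2 ∧
    (∀ τ : F ≃ₐ[K] F, τ ≠ 1 → ti τ a ∉ P) ∧ (∀ τ : F ≃ₐ[K] F, ti τ b ∉ P) ∧
    (∀ τ : F ≃ₐ[K] F, τ ≠ 1 → ti τ b ∉ Q) ∧ (∀ τ : F ≃ₐ[K] F, ti τ a ∉ Q) := by
  classical
  have hfd : FiniteDimensional K F := by
    have : IsScalarTower ℚ K F := inferInstance
    exact FiniteDimensional.right ℚ K F
  have hfin : Finite (F ≃ₐ[K] F) := inferInstance
  have hft := Fintype.ofFinite (F ≃ₐ[K] F)
  obtain ⟨x, hx0, hx⟩ := exists_gen K F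
  let D : 𝓞 F := (p : 𝓞 F) * ∏ τ : {τ : F ≃ₐ[K] F // τ ≠ 1}, (ti τ.1 x - x)
  have hp' : (p : 𝓞 F) ≠ 0 := by exact_mod_cast hp
  have hD0 : D ≠ 0 := mul_ne_zero hp'
    (Finset.prod_ne_zero_iff.2 fun τ _ => sub_ne_zero.2 (hx τ.1 τ.2))
  have hpD : ∀ P : Ideal (𝓞 F), D ∉ P → (p : 𝓞 F) ∉ P := fun P h h1 => h (P.mul_mem_right _ h1)
  have hτD : ∀ P : Ideal (𝓞 F), D ∉ P → ∀ τ : F ≃ₐ[K] F, τ ≠ 1 → ti τ x - x ∉ P := by
    intro P h τ hτ h1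
    apply h
    refine P.mul_mem_left _ ?_
    rw [← Finset.mul_prod_erase Finset.univ _ (Finset.mem_univ (⟨τ, hτ⟩ : {τ : F ≃ₐ[K] F // τ ≠ 1}))]
    exact P.mul_mem_right _ h1
  have hne : ∀ P : Ideal (𝓞 F), D ∉ P → (∃ n : ℕ, x - (n : 𝓞 F) ∈ P) → ∀ τ : F ≃ₐ[K] F, τ ≠ 1 →
      P ≠ P.comap (ti τ : 𝓞 F →+* 𝓞 F) := by
    rintro P hDP ⟨n, hn⟩ τ hτ h
    apply hτD P hDP τ hτ
    have h1 : x - (n : 𝓞 F) ∈ P.comap (ti τ : 𝓞 F →+* 𝓞 F) := by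
      rw [← h]
      exact hn
    rw [Ideal.mem_comap] at h1
    have h2 : (ti τ : 𝓞 F →+* 𝓞 F) (x - (n : 𝓞 F)) = ti τ x - (n : 𝓞 F) := by
      rw [map_sub, map_natCast]
      rfl
    rw [h2] at h1
    have h3 := P.sub_mem h1 hn
    rwa [sub_sub_sub_cancel_right] at h3
  obtain ⟨P, hP, hDP, hnP⟩ := exists_prime hx0 hD0
  have hP0 := ne_bot_max hP
  let l : ℕ := Ideal.absNorm P
  have hl0 : l ≠ 0 := by
    rw [Ne, Ideal.absNorm_eq_zero_iff]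
    exact hP0
  have hlP : (l : 𝓞 F) ∈ P := Ideal.absNorm_mem P
  obtain ⟨Q, hQ, hDQ, hnQ⟩ := exists_prime hx0 (D := D * (l : 𝓞 F))
    (mul_ne_zero hD0 (by exact_mod_cast hl0))
  have hQ0 := ne_bot_max hQ
  have hDQ' : D ∉ Q := fun h => hDQ (Q.mul_mem_right _ h)
  have hlQ : (l : 𝓞 F) ∉ Q := fun h => hDQ (Q.mul_mem_left _ h)
  have hPQ : ∀ τ : F ≃ₐ[K] F, P ≠ Q.comap (ti τ : 𝓞 F →+* 𝓞 F) := by
    intro τ h
    rw [h, Ideal.mem_comap, map_natCast] at hlP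
    exact hlQ hlP
  have hQP : ∀ τ : F ≃ₐ[K] F, Q ≠ P.comap (ti τ : 𝓞 F →+* 𝓞 F) := by
    intro τ h
    apply hlQ
    rw [h, Ideal.mem_comap, map_natCast]
    exact hlP
  obtain ⟨a, haP, haP2, ha⟩ := exists_unif hP hP0
    (J := fun i : {τ : F ≃ₐ[K] F // τ ≠ 1} ⊕ (F ≃ₐ[K] F) => Sum.elim
      (fun τ => P.comap (ti τ.1 : 𝓞 F →+* 𝓞 F)) (fun τ => Q.comap (ti τ : 𝓞 F →+* 𝓞 F)) i) (by
      rintro (τ | τ)
      · exact comap_max hP _
      · exact comap_max hQ _) (by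
      rintro (τ | τ)
      · exact hne P hDP hnP τ.1 τ.2
      · exact hPQ τ)
  obtain ⟨b, hbQ, hbQ2, hb⟩ := exists_unif hQ hQ0
    (J := fun i : {τ : F ≃ₐ[K] F // τ ≠ 1} ⊕ (F ≃ₐ[K] F) => Sum.elim
      (fun τ => Q.comap (ti τ.1 : 𝓞 F →+* 𝓞 F)) (fun τ => P.comap (ti τ : 𝓞 F →+* 𝓞 F)) i) (by
      rintro (τ | τ)
      · exact comap_max hQ _
      · exact comap_max hP _) (by
      rintro (τ | τ)
      · exact hne Q hDQ' hnQ τ.1 τ.2
      · exact hQP τ)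
  exact ⟨a, b, P, Q, hP, hQ, hpD P hDP, hpD Q hDQ', haP, haP2, hbQ, hbQ2,
    fun τ hτ h => ha (Sum.inl ⟨τ, hτ⟩) h, fun τ h => hb (Sum.inr τ) h,
    fun τ hτ h => hb (Sum.inl ⟨τ, hτ⟩) h, fun τ h => ha (Sum.inr τ) h⟩

end

end Pool.Agent.Q5.RF
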