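import Pool.Agent.Q5.RF.Prime
import Pool.Agent.Q5.RF.Ram

/-! Radical extensions without automorphisms. -/

set_option autoImplicit false
set_option linter.unusedSectionVars false

namespace Pool.Agent.Q5.RF

open NumberField Polynomial Module

/-- a field without nontrivial automorphisms -/
def Rigid (F : Type) [Field F] : Prop := ∀ (τ : F ≃+* F) (x : F), τ x = x

section
variable {F Y : Type} [Field F] [NumberField F] [Field Y] [NumberField Y] [Algebra F Y]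

theorem fd_of_nf : FiniteDimensional F Y := by
  have : IsScalarTower ℚ F Y := inferInstance
  exact FiniteDimensional.right ℚ F Y

/-- the roots of unity -/
theorem root_one {p k : ℕ} (hp : p.Prime) (hlt : finrank ℚ F + 1 < p)
    (hdeg : finrank F Y = p ^ k) {η : Y} (hη : η ^ p = 1) : η = 1 := by
  by_contra h1
  have hpf : Fact p.Prime := ⟨hp⟩
  have hprim : IsPrimitiveRoot η p := IsPrimitiveRoot.iff_orderOf.2 (orderOf_eq_prime hη h1)
  have h2 : finrank ℚ (IntermediateField.adjoin ℚ {η}) = p - 1 := by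
    rw [IntermediateField.adjoin.finrank (hprim.isIntegral hp.pos).tower_top,
      ← Polynomial.cyclotomic_eq_minpoly_rat hprim hp.pos, natDegree_cyclotomic,
      Nat.totient_prime hp]
  have h3 : finrank ℚ (IntermediateField.adjoin ℚ {η}) ∣ finrank ℚ Y :=
    ⟨_, (finrank_mul_finrank ℚ (IntermediateField.adjoin ℚ {η}) Y).symm⟩
  rw [h2, ← finrank_mul_finrank ℚ F Y, hdeg] at h3
  have h4 : Nat.Coprime (p - 1) (p ^ k) := by
    refine Nat.Coprime.pow_right k ?_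
    have h5 : Nat.Coprime (p - 1) (p - 1 + 1) := by simp
    rwa [Nat.sub_add_cancel hp.one_le] at h5
  have h5 := Nat.le_of_dvd finrank_pos (h4.dvd_of_dvd_mul_right h3)
  omega

/-- the restriction of an automorphism -/
theorem restrict_aut {p k : ℕ} (hp : p.Prime) (hlt : finrank ℚ F + 1 < p)
    (hdeg : finrank F Y = p ^ k) (τ : Y ≃+* Y) :
    ∃ τ₀ : F ≃ₐ[ℚ] F, ∀ x : F, τ (algebraMap F Y x) = algebraMap F Y (τ₀ x) := by
  let i : F →ₐ[ℚ] Y := IsScalarTower.toAlgHom ℚ F Y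
  let τ' : Y ≃ₐ[ℚ] Y := AlgEquiv.ofRingEquiv (f := τ) fun x => map_ratCast τ x
  let E : IntermediateField ℚ Y := i.fieldRange
  let E' : IntermediateField ℚ Y := (((τ' : Y →ₐ[ℚ] Y)).comp i).fieldRange
  have hE : finrank ℚ E = finrank ℚ F :=
    (AlgEquiv.ofInjectiveField i).symm.toLinearEquiv.finrank_eq
  have hE' : finrank ℚ E' = finrank ℚ F :=
    (AlgEquiv.ofInjectiveField (((τ' : Y →ₐ[ℚ] Y)).comp i)).symm.toLinearEquiv.finrank_eq
  have h1 : finrank ℚ E ∣ finrank ℚ ↥(E ⊔ E') :=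
    IntermediateField.finrank_dvd_of_le_right le_sup_left
  obtain ⟨s, hs⟩ := h1
  have h2 : finrank ℚ ↥(E ⊔ E') ∣ finrank ℚ Y := ⟨_, (finrank_mul_finrank ℚ ↥(E ⊔ E') Y).symm⟩
  have h3 : finrank ℚ ↥(E ⊔ E') ≤ finrank ℚ E * finrank ℚ E' := IntermediateField.finrank_sup_le E E'
  have hpos : 0 < finrank ℚ F := finrank_pos
  have h4 : s ∣ p ^ k := by
    rw [hs, hE, ← finrank_mul_finrank ℚ F Y, hdeg] at h2
    exact Nat.dvd_of_mul_dvd_mul_left hpos h2
  have h5 : s ≤ finrank ℚ F := by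
    rw [hs, hE, hE'] at h3
    exact Nat.le_of_mul_le_mul_left h3 hpos
  have h6 : s = 1 := by
    obtain ⟨j, -, hj⟩ := (Nat.dvd_prime_pow hp).1 h4
    rcases Nat.eq_zero_or_pos j with h7 | h7
    · rw [hj, h7, pow_zero]
    · have h8 : p ∣ s := by
        rw [hj]
        exact dvd_pow_self p h7.ne'
      have h9 : 0 < s := Nat.pos_of_dvd_of_pos h4 (pow_pos hp.pos _)
      have h10 := Nat.le_of_dvd h9 h8
      omega
  rw [h6, mul_one] at hs
  have h7 : E = E ⊔ E' := IntermediateField.eq_of_le_of_finrank_eq le_sup_left hs.symm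
  have h8 : E' ≤ E := by
    rw [h7]
    exact le_sup_right
  have h9 : ∀ x : F, ∃ y : F, algebraMap F Y y = τ (algebraMap F Y x) := fun x => h8 ⟨x, rfl⟩
  choose f hf using h9
  have hinj := (algebraMap F Y).injective
  let g : F →+* F :=
    { toFun := f
      map_one' := hinj (by rw [hf, map_one, map_one])
      map_mul' := fun x y => hinj (by rw [hf, map_mul, map_mul, map_mul, hf, hf])
      map_zero' := hinj (by rw [hf, map_zero, map_zero])
      map_add' := fun x y => hinj (by rw [hf, map_add, map_add, map_add, hf, hf]) }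
  let g' : F →ₐ[ℚ] F := { g with commutes' := fun x => map_ratCast g x }
  have hb : Function.Bijective g' := Algebra.IsAlgebraic.algHom_bijective g'
  exact ⟨AlgEquiv.ofBijective g' hb, fun x => (hf x).symm⟩

/-- an element with a simple zero is not a power -/
theorem not_pow {p : ℕ} (hp : 2 ≤ p) {Q : Ideal (𝓞 Y)} (hQ : Q.IsPrime) {u : 𝓞 Y} (hu : u ∈ Q)
    (hu2 : u ∉ Q ^ 2) (δ : Y) : δ ^ p ≠ (u : Y) := by
  intro h
  have hint : IsIntegral ℤ δ := by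
    have h1 : IsIntegral ℤ (δ ^ p) := by
      rw [h]
      exact u.2
    exact h1.of_pow (by omega)
  let d : 𝓞 Y := ⟨δ, hint⟩
  have hd : d ^ p = u := RingOfIntegers.ext (by
    have e1 : ((d ^ p : 𝓞 Y) : Y) = δ ^ p := map_pow (algebraMap (𝓞 Y) Y) d p
    rw [e1, h])
  apply hu2
  rw [← hd]
  have h2 : d ∈ Q := hQ.mem_of_pow_mem p (by rw [hd]; exact hu)
  exact Ideal.pow_le_pow_right hp (Ideal.pow_mem_pow h2 p)

/-- a simple radical extension -/
structure Rad (p : ℕ) (c : 𝓞 F) (γ : 𝓞 Y) : Prop where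
  pow : γ ^ p = algebraMap (𝓞 F) (𝓞 Y) c
  gen : Algebra.adjoin F {(γ : Y)} = ⊤
  deg : finrank F Y = p

theorem exists_above {P : Ideal (𝓞 F)} (hP : P.IsMaximal) :
    ∃ Q : Ideal (𝓞 Y), Q.IsMaximal ∧ Q.comap (algebraMap (𝓞 F) (𝓞 Y)) = P := by
  have hk : RingHom.ker (algebraMap (𝓞 F) (𝓞 Y)) ≤ P := by
    rw [(RingHom.injective_iff_ker_eq_bot _).1 (FaithfulSMul.algebraMap_injective (𝓞 F) (𝓞 Y))]
    exact bot_le
  obtain ⟨Q, hQ, hQP⟩ := Ideal.exists_ideal_over_maximal_of_isIntegral (S := 𝓞 Y) P hk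
  exact ⟨Q, hQ, hQP⟩

/-- the step in a radical extension -/
theorem Rad.step {p : ℕ} (hp : p.Prime) {c : 𝓞 F} {γ : 𝓞 Y} (h : Rad p c γ) {P : Ideal (𝓞 F)}
    (hP : P.IsMaximal) (hpP : (p : 𝓞 F) ∉ P) (hcP : c ∉ P) {u : 𝓞 F} (hu : u ∈ P)
    (hu2 : u ∉ P ^ 2) : ∃ Q : Ideal (𝓞 Y), Q.IsMaximal ∧
      Q.comap (algebraMap (𝓞 F) (𝓞 Y)) = P ∧ algebraMap (𝓞 F) (𝓞 Y) u ∈ Q ∧
      algebraMap (𝓞 F) (𝓞 Y) u ∉ Q ^ 2 := by
  obtain ⟨Q, hQ, hQP⟩ := exists_above (Y := Y) hP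
  refine ⟨Q, hQ, hQP, ?_, ?_⟩
  · have h1 : u ∈ Q.comap (algebraMap (𝓞 F) (𝓞 Y)) := by
      rw [hQP]
      exact hu
    exact h1
  · exact unif_up hp h.pow h.gen h.deg hP (ne_bot_max hP) hQ.isPrime hQP hpP hcP hu hu2

/-- the conjugate prime -/
theorem conj_prime {P : Ideal (𝓞 F)} (hP : P.IsMaximal) (τ : F ≃ₐ[ℚ] F) {c : 𝓞 F} (hc : c ∈ P)
    (hc2 : c ∉ P ^ 2) : ∃ P' : Ideal (𝓞 F), P'.IsMaximal ∧ ti τ c ∈ P' ∧ ti τ c ∉ P' ^ 2 ∧
      ∀ y, y ∈ P' ↔ ti τ⁻¹ y ∈ P := by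
  have hinv : ∀ x, ti τ⁻¹ (ti τ x) = x := by
    intro x
    rw [← ti_mul, inv_mul_cancel, ti_one]
  refine ⟨P.comap (ti τ⁻¹ : 𝓞 F →+* 𝓞 F), comap_max hP _, ?_, fun h => hc2 ?_, fun y => Iff.rfl⟩
  · change ti τ⁻¹ (ti τ c) ∈ P
    rwa [hinv]
  · have h1 := Ideal.mem_map_of_mem (ti τ⁻¹ : 𝓞 F →+* 𝓞 F) h
    rw [Ideal.map_pow, Ideal.map_comap_of_surjective (ti τ⁻¹ : 𝓞 F →+* 𝓞 F)
      (ti τ⁻¹).surjective] at h1
    have h2 : (ti τ⁻¹ : 𝓞 F →+* 𝓞 F) (ti τ c) = c := hinv c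
    rwa [h2] at h1

/-- an automorphism that fixes the base and the generator -/
theorem fix_of_gen {γ : Y} (hgen : Algebra.adjoin F {γ} = ⊤) (τ : Y ≃+* Y)
    (h1 : ∀ x : F, τ (algebraMap F Y x) = algebraMap F Y x) (h2 : τ γ = γ) (y : Y) : τ y = y := by
  let τ' : Y →ₐ[F] Y := { (τ : Y →+* Y) with commutes' := h1 }
  have h3 : τ' = AlgHom.id F Y := AlgHom.ext_of_adjoin_eq_top hgen fun x hx => by
    rw [Set.mem_singleton_iff.1 hx]
    exact h2
  exact DFunLike.congr_fun h3 y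

/-- the generator is fixed -/
theorem fix_root {p k : ℕ} (hp : p.Prime) (hlt : finrank ℚ F + 1 < p)
    (hdeg : finrank F Y = p ^ k) (τ : Y ≃+* Y) {γ : Y} (h0 : γ ≠ 0) (h : τ (γ ^ p) = γ ^ p) :
    τ γ = γ := by
  have h1 : (τ γ / γ) ^ p = 1 := by
    rw [div_pow, ← map_pow, h, div_self (pow_ne_zero _ h0)]
  have h2 := root_one hp hlt hdeg h1
  rwa [div_eq_one_iff_eq h0] at h2

/-- **One radical.** -/
theorem rigid_one {p : ℕ} (hp : p.Prime) (hlt : finrank ℚ F + 1 < p) {c : 𝓞 F} {γ : 𝓞 Y}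
    (h : Rad p c γ) {P : Ideal (𝓞 F)} (hP : P.IsMaximal) (hpP : (p : 𝓞 F) ∉ P) (hc : c ∈ P)
    (hc2 : c ∉ P ^ 2) (hconj : ∀ τ : F ≃ₐ[ℚ] F, τ ≠ 1 → ti τ c ∉ P) : Rigid Y := by
  intro τ
  have hdeg : finrank F Y = p ^ 1 := by rw [h.deg, pow_one]
  obtain ⟨τ₀, hτ₀⟩ := restrict_aut hp hlt hdeg τ
  have hγ : (γ : Y) ^ p = algebraMap F Y (c : F) := by
    have h1 := congrArg (fun x : 𝓞 Y => (x : Y)) h.pow
    have e1 : ((γ ^ p : 𝓞 Y) : Y) = (γ : Y) ^ p := map_pow (algebraMap (𝓞 Y) Y) γ p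
    have e2 : ((algebraMap (𝓞 F) (𝓞 Y) c : 𝓞 Y) : Y) = algebraMap F Y (c : F) := rfl
    rw [← e1, ← e2]
    exact h1
  have h1 : τ₀ = 1 := by
    by_contra hne
    obtain ⟨P', hP', hu, hu2, hmem⟩ := conj_prime hP τ₀ hc hc2
    have hpP' : (p : 𝓞 F) ∉ P' := by
      rw [hmem, map_natCast]
      exact hpP
    have hcP' : c ∉ P' := by
      rw [hmem]
      exact hconj _ fun h2 => hne (inv_eq_one.1 h2)
    obtain ⟨Q, hQ, hQP, hu', hu2'⟩ := h.step hp hP' hpP' hcP' hu hu2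
    apply not_pow hp.two_le hQ.isPrime hu' hu2' (τ γ)
    rw [← map_pow, hγ, hτ₀]
    rfl
  have h2 : ∀ x : F, τ (algebraMap F Y x) = algebraMap F Y x := fun x => by
    rw [hτ₀, h1]
    rfl
  have hγ0 : (γ : Y) ≠ 0 := by
    intro h3
    rw [h3, zero_pow hp.ne_zero, eq_comm, map_eq_zero_iff _ (algebraMap F Y).injective] at hγ
    apply hc2
    have h4 : c = 0 := RingOfIntegers.ext hγ
    rw [h4]
    exact Submodule.zero_mem _
  exact fix_of_gen h.gen τ h2 (fix_root hp hlt hdeg τ hγ0 (by rw [hγ, h2]))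

/-- **Two radicals.** -/
theorem rigid_two {M : Type} [Field M] [NumberField M] [Algebra Y M] [Algebra F M]
    [IsScalarTower F Y M] {p : ℕ} (hp : p.Prime) (hlt : finrank ℚ F + 1 < p) {a b : 𝓞 F}
    {β : 𝓞 Y} {α : 𝓞 M} (hb : Rad p b β) (ha : Rad p (algebraMap (𝓞 F) (𝓞 Y) a) α)
    {P : Ideal (𝓞 F)} (hP : P.IsMaximal) (hpP : (p : 𝓞 F) ∉ P) (haP : a ∈ P) (haP2 : a ∉ P ^ 2)
    (hconj : ∀ τ : F ≃ₐ[ℚ] F, τ ≠ 1 → ti τ a ∉ P) (hconj' : ∀ τ : F ≃ₐ[ℚ] F, ti τ b ∉ P) :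
    Rigid M := by
  intro τ
  have hfd1 : FiniteDimensional F Y := fd_of_nf
  have hfd2 : FiniteDimensional Y M := fd_of_nf
  have hdeg : finrank F M = p ^ 2 := by
    rw [← finrank_mul_finrank F Y M, hb.deg, ha.deg, sq]
  obtain ⟨τ₀, hτ₀⟩ := restrict_aut hp hlt hdeg τ
  have hα : (α : M) ^ p = algebraMap F M (a : F) := by
    have h1 := congrArg (fun x : 𝓞 M => (x : M)) ha.pow
    have e1 : ((α ^ p : 𝓞 M) : M) = (α : M) ^ p := map_pow (algebraMap (𝓞 M) M) α p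
    have e2 : ((algebraMap (𝓞 Y) (𝓞 M) (algebraMap (𝓞 F) (𝓞 Y) a) : 𝓞 M) : M) =
        algebraMap F M (a : F) := by
      rw [IsScalarTower.algebraMap_apply F Y M]
      rfl
    rw [← e1, ← e2]
    exact h1
  have hβ : (algebraMap Y M (β : Y)) ^ p = algebraMap F M (b : F) := by
    have h1 := congrArg (fun x : 𝓞 Y => (x : Y)) hb.pow
    have e1 : ((β ^ p : 𝓞 Y) : Y) = (β : Y) ^ p := map_pow (algebraMap (𝓞 Y) Y) β p
    have e2 : ((algebraMap (𝓞 F) (𝓞 Y) b : 𝓞 Y) : Y) = algebraMap F Y (b : F) := rfl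
    have h2 : (β : Y) ^ p = algebraMap F Y (b : F) := by
      rw [← e1, ← e2]
      exact h1
    rw [← map_pow, h2, ← IsScalarTower.algebraMap_apply F Y M]
  have h1 : τ₀ = 1 := by
    by_contra hne
    obtain ⟨P', hP', hu, hu2, hmem⟩ := conj_prime hP τ₀ haP haP2
    have hpP' : (p : 𝓞 F) ∉ P' := by
      rw [hmem, map_natCast]
      exact hpP
    have haP' : a ∉ P' := by
      rw [hmem]
      exact hconj _ fun h2 => hne (inv_eq_one.1 h2)
    have hbP' : b ∉ P' := by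
      rw [hmem]
      exact hconj' _
    obtain ⟨Q, hQ, hQP, hu', hu2'⟩ := hb.step hp hP' hpP' hbP' hu hu2
    have hpQ : (p : 𝓞 Y) ∉ Q := by
      intro h2
      apply hpP'
      rw [← hQP, Ideal.mem_comap, map_natCast]
      exact h2
    have haQ : algebraMap (𝓞 F) (𝓞 Y) a ∉ Q := by
      intro h2
      apply haP'
      rw [← hQP]
      exact h2
    obtain ⟨Q', hQ', hQP', hu'', hu2''⟩ := ha.step hp hQ hpQ haQ hu' hu2'
    apply not_pow hp.two_le hQ'.isPrime hu'' hu2'' (τ α)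
    rw [← map_pow, hα, hτ₀, IsScalarTower.algebraMap_apply F Y M]
    rfl
  have h2 : ∀ x : F, τ (algebraMap F M x) = algebraMap F M x := fun x => by
    rw [hτ₀, h1]
    rfl
  have hα0 : (α : M) ≠ 0 := by
    intro h3
    rw [h3, zero_pow hp.ne_zero, eq_comm, map_eq_zero_iff _ (algebraMap F M).injective] at hα
    apply haP2
    have h4 : a = 0 := RingOfIntegers.ext hα
    rw [h4]
    exact Submodule.zero_mem _
  have hβ0 : algebraMap Y M (β : Y) ≠ 0 := by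
    intro h3
    rw [h3, zero_pow hp.ne_zero, eq_comm, map_eq_zero_iff _ (algebraMap F M).injective] at hβ
    apply hconj' 1
    have h4 : b = 0 := RingOfIntegers.ext hβ
    rw [h4, map_zero]
    exact Submodule.zero_mem _
  have h3 : τ (algebraMap Y M (β : Y)) = algebraMap Y M (β : Y) :=
    fix_root hp hlt hdeg τ hβ0 (by rw [hβ, h2])
  -- the intermediate field is fixed
  have h4 : ∀ y : Y, τ (algebraMap Y M y) = algebraMap Y M y := by
    let f : Y →ₐ[F] M := { ((τ : M →+* M).comp (algebraMap Y M)) with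
      commutes' := fun x => by
        change τ (algebraMap Y M (algebraMap F Y x)) = algebraMap F M x
        rw [← IsScalarTower.algebraMap_apply F Y M, h2] }
    have h5 : f = IsScalarTower.toAlgHom F Y M :=
      AlgHom.ext_of_adjoin_eq_top hb.gen fun x hx => by
        rw [Set.mem_singleton_iff.1 hx]
        exact h3
    exact fun y => DFunLike.congr_fun h5 y
  exact fix_of_gen ha.gen τ h4 (fix_root hp hlt hdeg τ hα0 (by rw [hα, h2]))

end

end Pool.Agent.Q5.RF
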