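import Pool.Agent.Q5.RF.Law

/-! The permutation characters of the fields without automorphisms. -/

set_option autoImplicit false
set_option linter.unusedSectionVars false

namespace Pool.Agent.Q5.RF

open NumberField Polynomial Module Pool.Agent.W353.NF Pool.Agent.W401.Cheb Pool.Agent.Q5.BR
open Pool.Agent.Q5.VL (IsLaw)

section
variable {K : Type} [Field K] [NumberField K] {F : Type} [Field F] [NumberField F] [Algebra K F]

theorem exists_closure_equiv (i₀ : F →ₐ[K] AlgebraicClosure K) :
    ∃ φ : AlgebraicClosure F ≃+* AlgebraicClosure K,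
      ∀ x : F, φ (algebraMap F (AlgebraicClosure F) x) = i₀ x := by
  let _ : Algebra F (AlgebraicClosure K) := (i₀ : F →+* AlgebraicClosure K).toAlgebra
  have hst : IsScalarTower K F (AlgebraicClosure K) :=
    IsScalarTower.of_algebraMap_eq fun x => (i₀.commutes x).symm
  have hfd : FiniteDimensional K F := fd_of_nf
  have halg : Algebra.IsAlgebraic F (AlgebraicClosure K) :=
    Algebra.IsAlgebraic.tower_top (K := K) F
  have hcl : IsAlgClosure F (AlgebraicClosure K) := ⟨inferInstance, halg⟩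
  let e := IsAlgClosure.equiv F (AlgebraicClosure F) (AlgebraicClosure K)
  exact ⟨e.toRingEquiv, fun x => e.commutes x⟩

/-- the automorphism of the algebraic closure of `F` -/
noncomputable def trans' (i₀ : F →ₐ[K] AlgebraicClosure K) (σ : GK K)
    (h : act K F σ i₀ = i₀) : GK F :=
  let φ := (exists_closure_equiv i₀).choose
  have hφ := (exists_closure_equiv i₀).choose_spec
  AlgEquiv.ofRingEquiv (f := (φ.trans (σ : AlgebraicClosure K ≃+* AlgebraicClosure K)).trans φ.symm)
    (fun x => by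
      change φ.symm (σ (φ (algebraMap F (AlgebraicClosure F) x))) = _
      rw [hφ x, RingEquiv.symm_apply_eq, hφ x]
      exact DFunLike.congr_fun h x)

theorem trans'_apply (i₀ : F →ₐ[K] AlgebraicClosure K) (σ : GK K) (h : act K F σ i₀ = i₀)
    (z : AlgebraicClosure F) : trans' i₀ σ h z = (exists_closure_equiv i₀).choose.symm
      (σ ((exists_closure_equiv i₀).choose z)) := rfl

theorem fixn_fiber (L : Type) [Field L] [NumberField L] [Algebra F L] [Algebra K L]
    [IsScalarTower K F L] (i₀ : F →ₐ[K] AlgebraicClosure K) (σ : GK K)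
    (h : act K F σ i₀ = i₀) :
    Nat.card {i : L →ₐ[K] AlgebraicClosure K // act K L σ i = i ∧
      i.comp (IsScalarTower.toAlgHom K F L) = i₀} = fixn F L (trans' i₀ σ h) := by
  unfold fixn
  let φ := (exists_closure_equiv i₀).choose
  have hφ := (exists_closure_equiv i₀).choose_spec
  refine Nat.card_congr
    { toFun := fun i => ⟨{ ((φ.symm : AlgebraicClosure K →+* AlgebraicClosure F).comp
          (i.1 : L →+* AlgebraicClosure K)) with
          commutes' := fun x => ?_ }, ?_⟩
      invFun := fun i => ⟨{ ((φ : AlgebraicClosure F →+* AlgebraicClosure K).comp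
          (i.1 : L →+* AlgebraicClosure F)) with
          commutes' := fun x => ?_ }, ?_, ?_⟩
      left_inv := fun i => ?_
      right_inv := fun i => ?_ }
  · change φ.symm (i.1 (algebraMap F L x)) = _
    rw [RingEquiv.symm_apply_eq, hφ x]
    exact DFunLike.congr_fun i.2.2 x
  · apply AlgHom.ext
    intro x
    change φ.symm (σ (φ (φ.symm (i.1 x)))) = φ.symm (i.1 x)
    rw [RingEquiv.apply_symm_apply]
    congr 1
    exact DFunLike.congr_fun i.2.1 x
  · change φ (i.1 (algebraMap K L x)) = _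
    rw [IsScalarTower.algebraMap_apply K F L, i.1.commutes, hφ]
    exact i₀.commutes x
  · apply AlgHom.ext
    intro x
    change σ (φ (i.1 x)) = φ (i.1 x)
    have h1 : φ.symm (σ (φ (i.1 x))) = i.1 x := DFunLike.congr_fun i.2 x
    rw [RingEquiv.symm_apply_eq] at h1
    exact h1
  · apply AlgHom.ext
    intro x
    change φ (i.1 (algebraMap F L x)) = i₀ x
    rw [i.1.commutes, hφ]
  · apply Subtype.ext
    apply AlgHom.ext
    intro x
    exact RingEquiv.apply_symm_apply φ _
  · apply Subtype.ext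
    apply AlgHom.ext
    intro x
    exact RingEquiv.symm_apply_apply φ _

/-- **Base change of the relations.** -/
theorem rel_base {ι : Type} [Fintype ι] {Y : ι → Ext F} [∀ j, Algebra K (Y j).F]
    [∀ j, IsScalarTower K F (Y j).F] {n : ι → ℤ} {m : ℤ}
    (h : ∀ σ : GK F, ∑ j, n j * (fixn F (Y j).F σ : ℤ) = m) (σ : GK K) :
    ∑ j, n j * (fixn K (Y j).F σ : ℤ) = m * (fixn K F σ : ℤ) := by
  classical
  have hfd : FiniteDimensional K F := fd_of_nf
  let A := {i₀ : F →ₐ[K] AlgebraicClosure K // act K F σ i₀ = i₀}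
  have hAf : Fintype A := Fintype.ofFinite A
  have key : ∀ j, fixn K (Y j).F σ = ∑ i₀ : A, fixn F (Y j).F (trans' i₀.1 σ i₀.2) := by
    intro j
    have hfd' : FiniteDimensional K (Y j).F := fd_of_nf
    let r : {i : (Y j).F →ₐ[K] AlgebraicClosure K // act K (Y j).F σ i = i} → A := fun i =>
      ⟨i.1.comp (IsScalarTower.toAlgHom K F (Y j).F), by
        apply AlgHom.ext
        intro x
        exact DFunLike.congr_fun i.2 (algebraMap F (Y j).F x)⟩
    have h1 : fixn K (Y j).F σ = Nat.card ((i₀ : A) × {i // r i = i₀}) :=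
      Nat.card_congr (Equiv.sigmaFiberEquiv r).symm
    rw [h1, Nat.card_sigma]
    refine Finset.sum_congr rfl fun i₀ _ => ?_
    rw [← fixn_fiber (Y j).F i₀.1 σ i₀.2]
    refine Nat.card_congr ⟨fun i => ⟨i.1.1, i.1.2, congrArg Subtype.val i.2⟩,
      fun i => ⟨⟨i.1, i.2.1⟩, Subtype.ext i.2.2⟩, fun i => rfl, fun i => rfl⟩
  have h2 : (fixn K F σ : ℤ) = ∑ _i₀ : A, (1 : ℤ) := by
    rw [Finset.sum_const, Finset.card_univ, ← Nat.card_eq_fintype_card]
    simp only [nsmul_eq_mul, mul_one]
    rfl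
  rw [h2, Finset.mul_sum]
  calc ∑ j, n j * (fixn K (Y j).F σ : ℤ)
      = ∑ j, ∑ i₀ : A, n j * (fixn F (Y j).F (trans' i₀.1 σ i₀.2) : ℤ) := by
        refine Finset.sum_congr rfl fun j _ => ?_
        rw [key j, Nat.cast_sum, Finset.mul_sum]
    _ = ∑ i₀ : A, ∑ j, n j * (fixn F (Y j).F (trans' i₀.1 σ i₀.2) : ℤ) := Finset.sum_comm
    _ = ∑ _i₀ : A, m * 1 := by
        refine Finset.sum_congr rfl fun i₀ _ => ?_
        rw [h, mul_one]

end

section
variable {K : Type} [Field K] [NumberField K]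

/-- the span of a class of fields -/
def InSpan (C : Ext K → Prop) (F : Type) [Field F] [NumberField F] [Algebra K F] (t : ℤ) : Prop :=
  ∃ (ι : Type) (_ : Fintype ι) (X : ι → Ext K) (n : ι → ℤ), (∀ j, C (X j)) ∧
    ∀ σ : GK K, ∑ j, n j * (fixn K (X j).F σ : ℤ) = t * (fixn K F σ : ℤ)

/-- being in the span is a law -/
theorem span_isLaw (C : Ext K → Prop) : IsLaw (K := K) (fun F _ _ _ t => InSpan C F t) where
  zero := fun F _ _ _ => ⟨Empty, inferInstance, Empty.elim, Empty.elim, fun j => j.elim,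
    fun σ => by simp⟩
  add := by
    rintro F _ _ _ t u ⟨ι, _, X, n, hX, h⟩ ⟨κ, _, Y, m, hY, h'⟩
    refine ⟨ι ⊕ κ, inferInstance, Sum.elim X Y, Sum.elim n m, ?_, fun σ => ?_⟩
    · rintro (j | j)
      · exact hX j
      · exact hY j
    · rw [Fintype.sum_sum_type, add_mul, ← h σ, ← h' σ]
      rfl
  neg := by
    rintro F _ _ _ t ⟨ι, _, X, n, hX, h⟩
    refine ⟨ι, inferInstance, X, fun j => -n j, hX, fun σ => ?_⟩
    rw [neg_mul, ← h σ, ← Finset.sum_neg_distrib]
    exact Finset.sum_congr rfl fun j _ => neg_mul _ _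
  step := by
    intro F _ _ _ ι _ Y _ _ n m hrel t hj
    choose κ hκ X k hX hrel' using hj
    refine ⟨(j : ι) × κ j, @Sigma.instFintype ι κ hκ _, fun a => X a.1 a.2,
      fun a => n a.1 * k a.1 a.2, fun a => hX a.1 a.2, fun σ => ?_⟩
    have h1 := rel_base (K := K) hrel σ
    rw [mul_right_comm, ← h1, Finset.sum_mul, Fintype.sum_sigma]
    refine Finset.sum_congr rfl fun j _ => ?_
    rw [mul_assoc, mul_comm _ t, ← hrel' j σ, Finset.mul_sum]
    exact Finset.sum_congr rfl fun a _ => mul_assoc _ _ _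

end

end Pool.Agent.Q5.RF
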